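import Mathlib

set_option autoImplicit false

/-!
Weak hyperbolic dimension of a metric space given by its distance function, word metrics,
Thompson's group F and the first Grigorchuk group.
-/

namespace Pool.Agent.H786Z.WH

section Metric

variable {X : Type*}

/-- The ball of radius `s` about `x`: the closed ball if `cl` is true, the open ball otherwise. -/
def ball (cl : Bool) (d : X → X → ℝ) (x : X) (s : ℝ) : Set X :=
  {y | if cl then d x y ≤ s else d x y < s}

/-- `Y` is `(N, R)`-large scale doubling. -/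
def LSDoubling (cl : Bool) (d : X → X → ℝ) (N : ℕ) (R : ℝ) (Y : Set X) : Prop :=
  ∀ x : X, ∀ r : ℝ, R ≤ r →
    ∃ c : Fin N → X, Y ∩ ball cl d x (2 * r) ⊆ ⋃ j, ball cl d (c j) r

/-- A family is weakly large scale doubling: one pair `(N, R)` works for all members. -/
def WeaklyLSD (cl : Bool) (d : X → X → ℝ) (𝒴 : Set (Set X)) : Prop :=
  ∃ N : ℕ, 1 ≤ N ∧ ∃ R : ℝ, 0 < R ∧ ∀ Y ∈ 𝒴, LSDoubling cl d N R Y

/-- Points in different members of the family are at distance at least `r`. -/
def RDisjoint (d : X → X → ℝ) (r : ℝ) (𝒰 : Set (Set X)) : Prop :=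
  ∀ U ∈ 𝒰, ∀ V ∈ 𝒰, U ≠ V → ∀ x ∈ U, ∀ y ∈ V, r ≤ d x y

/-- `X` is `(r, n)`-decomposable over `𝒴`: it is the union of `n + 1` sets, each of which is the
union of an `r`-disjoint family of members of `𝒴`. -/
def Decomposable (d : X → X → ℝ) (r : ℝ) (n : ℕ) (𝒴 : Set (Set X)) : Prop :=
  ∃ 𝒰 : Fin (n + 1) → Set (Set X),
    (∀ i, 𝒰 i ⊆ 𝒴) ∧ (∀ i, RDisjoint d r (𝒰 i)) ∧ ⋃ i, ⋃₀ 𝒰 i = Set.univ

/-- The weak hyperbolic dimension: the least `n` such that for every `r > 0` the space is
`(r, n)`-decomposable over some weakly large scale doubling family; `⊤` if there is none. -/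
noncomputable def wHyperdim (cl : Bool) (d : X → X → ℝ) : ℕ∞ :=
  sInf ((fun n : ℕ => (n : ℕ∞)) ''
    {n : ℕ | ∀ r : ℝ, 0 < r → ∃ 𝒴 : Set (Set X), WeaklyLSD cl d 𝒴 ∧ Decomposable d r n 𝒴})

end Metric

/-- Word length with respect to `S`: the least length of a word in `S ∪ S⁻¹` with product `g`. -/
noncomputable def wordLength {G : Type*} [Group G] (S : Finset G) (g : G) : ℕ :=
  sInf {n : ℕ | ∃ l : List G, l.length = n ∧ (∀ s ∈ l, s ∈ S ∨ s⁻¹ ∈ S) ∧ l.prod = g}

/-- The word metric of `S`. -/
noncomputable def wordDist {G : Type*} [Group G] (S : Finset G) (g h : G) : ℝ :=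
  (wordLength S (g⁻¹ * h) : ℝ)

/-- The commutator `x y x⁻¹ y⁻¹`. -/
def comm {G : Type*} [Group G] (x y : G) : G := x * y * x⁻¹ * y⁻¹

/-- The free generator `A`. -/
def genA : FreeGroup (Fin 2) := FreeGroup.of 0

/-- The free generator `B`. -/
def genB : FreeGroup (Fin 2) := FreeGroup.of 1

/-- The two relators of Thompson's group F. -/
def thompsonRels : Set (FreeGroup (Fin 2)) :=
  {comm (genA * genB⁻¹) (genA⁻¹ * genB * genA),
   comm (genA * genB⁻¹) ((genA ^ 2)⁻¹ * genB * genA ^ 2)}

/-- Thompson's group F, by its two-relator presentation. -/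
abbrev ThompsonF : Type := PresentedGroup thompsonRels

/-- The action of the generator `a` on the vertices of the rooted binary tree. -/
def fa : List Bool → List Bool
  | [] => []
  | false :: w => true :: w
  | true :: w => false :: w

mutual
/-- The action of the generator `b = (a, c)`. -/
def fb : List Bool → List Bool
  | [] => []
  | false :: w => false :: fa w
  | true :: w => true :: fc w
/-- The action of the generator `c = (a, d)`. -/
def fc : List Bool → List Bool
  | [] => []
  | false :: w => false :: fa w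
  | true :: w => true :: fd w
/-- The action of the generator `d = (1, b)`. -/
def fd : List Bool → List Bool
  | [] => []
  | false :: w => false :: w
  | true :: w => true :: fb w
end

theorem fa_fa (w : List Bool) : fa (fa w) = w := by
  rcases w with _ | ⟨x, w⟩
  · rfl
  · cases x <;> rfl

theorem fbcd (w : List Bool) : fb (fb w) = w ∧ fc (fc w) = w ∧ fd (fd w) = w := by
  induction w with
  | nil => exact ⟨rfl, rfl, rfl⟩
  | cons x w ih =>
    cases x
    · simp [fb, fc, fd, fa_fa]
    · simp [fb, fc, fd, ih]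

/-- The generator `a` as a permutation of the vertices. -/
def pa : Equiv.Perm (List Bool) := ⟨fa, fa, fa_fa, fa_fa⟩
/-- The generator `b` as a permutation of the vertices. -/
def pb : Equiv.Perm (List Bool) := ⟨fb, fb, fun w => (fbcd w).1, fun w => (fbcd w).1⟩
/-- The generator `c` as a permutation of the vertices. -/
def pc : Equiv.Perm (List Bool) := ⟨fc, fc, fun w => (fbcd w).2.1, fun w => (fbcd w).2.1⟩
/-- The generator `d` as a permutation of the vertices. -/
def pd : Equiv.Perm (List Bool) := ⟨fd, fd, fun w => (fbcd w).2.2, fun w => (fbcd w).2.2⟩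

/-- The first Grigorchuk group. -/
def Grigorchuk : Subgroup (Equiv.Perm (List Bool)) := Subgroup.closure {pa, pb, pc, pd}

end Pool.Agent.H786Z.WH
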