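import Mathlib
import Pool.Agent.H786Z.WH.Defs

set_option autoImplicit false

namespace Pool.Agent.H786Z.WH

variable {G : Type*} [Group G]

theorem exists_word (S : Finset G) (hS : Subgroup.closure (S : Set G) = ⊤) (g : G) :
    ∃ l : List G, (∀ s ∈ l, s ∈ S ∨ s⁻¹ ∈ S) ∧ l.prod = g := by
  have hg : g ∈ Subgroup.closure (S : Set G) := by rw [hS]; trivial
  induction hg using Subgroup.closure_induction_left with
  | one => exact ⟨[], by simp, rfl⟩
  | mul_left x hx y _ ih =>
    obtain ⟨l, hl, rfl⟩ := ih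
    refine ⟨x :: l, ?_, by simp⟩
    intro s hs
    rcases List.mem_cons.1 hs with rfl | hs
    · exact Or.inl hx
    · exact hl s hs
  | inv_mul_cancel x hx y _ ih =>
    obtain ⟨l, hl, rfl⟩ := ih
    refine ⟨x⁻¹ :: l, ?_, by simp⟩
    intro s hs
    rcases List.mem_cons.1 hs with rfl | hs
    · exact Or.inr (by simpa using hx)
    · exact hl s hs

theorem exists_geod (S : Finset G) (hS : Subgroup.closure (S : Set G) = ⊤) (g : G) :
    ∃ l : List G, l.length = wordLength S g ∧ (∀ s ∈ l, s ∈ S ∨ s⁻¹ ∈ S) ∧ l.prod = g := by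
  obtain ⟨l, hl, hp⟩ := exists_word S hS g
  have hne : {n : ℕ | ∃ l : List G, l.length = n ∧ (∀ s ∈ l, s ∈ S ∨ s⁻¹ ∈ S) ∧
      l.prod = g}.Nonempty := ⟨l.length, l, rfl, hl, hp⟩
  exact Nat.sInf_mem hne

theorem wordLength_le (S : Finset G) (g : G) (l : List G) (hl : ∀ s ∈ l, s ∈ S ∨ s⁻¹ ∈ S)
    (hp : l.prod = g) : wordLength S g ≤ l.length :=
  Nat.sInf_le ⟨l, rfl, hl, hp⟩

theorem wordLength_one (S : Finset G) : wordLength S (1 : G) = 0 :=
  Nat.le_zero.1 (wordLength_le S 1 [] (by simp) rfl)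

theorem wordLength_mul (S : Finset G) (hS : Subgroup.closure (S : Set G) = ⊤) (g h : G) :
    wordLength S (g * h) ≤ wordLength S g + wordLength S h := by
  obtain ⟨l, hl, hl2, rfl⟩ := exists_geod S hS g
  obtain ⟨m, hm, hm2, rfl⟩ := exists_geod S hS h
  rw [← hl, ← hm, ← List.length_append]
  refine wordLength_le S _ (l ++ m) ?_ (by simp)
  intro s hs
  rcases List.mem_append.1 hs with hs | hs
  · exact hl2 s hs
  · exact hm2 s hs

theorem wordLength_inv (S : Finset G) (hS : Subgroup.closure (S : Set G) = ⊤) (g : G) :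
    wordLength S g⁻¹ ≤ wordLength S g := by
  obtain ⟨l, hl, hl2, rfl⟩ := exists_geod S hS g
  rw [← hl]
  have := wordLength_le S (l.prod)⁻¹ ((l.map (fun x => x⁻¹)).reverse) ?_
    (List.prod_inv_reverse l).symm
  · simpa using this
  · intro s hs
    rw [List.mem_reverse, List.mem_map] at hs
    obtain ⟨x, hx, rfl⟩ := hs
    rcases hl2 x hx with h | h
    · exact Or.inr (by simpa using h)
    · exact Or.inl h

theorem finite_ball (S : Finset G) (hS : Subgroup.closure (S : Set G) = ⊤) (n : ℕ) :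
    {g : G | wordLength S g ≤ n}.Finite := by
  classical
  have key : ∀ n : ℕ, {g : G | ∃ l : List G, l.length ≤ n ∧ (∀ s ∈ l, s ∈ S ∨ s⁻¹ ∈ S) ∧
      l.prod = g}.Finite := by
    intro n
    induction n with
    | zero =>
      refine (Set.finite_singleton (1 : G)).subset ?_
      rintro g ⟨l, hl, _, rfl⟩
      have : l = [] := List.length_eq_zero_iff.1 (Nat.le_zero.1 hl)
      subst this
      simp
    | succ n ih =>
      have hT : ((S : Set G) ∪ (fun x => x⁻¹) '' (S : Set G)).Finite :=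
        S.finite_toSet.union (S.finite_toSet.image _)
      refine ((Set.finite_singleton (1 : G)).union (Set.Finite.image2 (· * ·) hT ih)).subset ?_
      rintro g ⟨l, hl, hl2, rfl⟩
      rcases l with _ | ⟨x, l⟩
      · left; simp
      · right
        refine ⟨x, ?_, l.prod, ⟨l, by simpa using hl, fun s hs => hl2 s (List.mem_cons_of_mem _ hs),
          rfl⟩, by simp⟩
        rcases hl2 x List.mem_cons_self with h | h
        · exact Or.inl h
        · exact Or.inr ⟨x⁻¹, h, by simp⟩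
  refine (key n).subset ?_
  intro g hg
  obtain ⟨l, hl, hl2, hp⟩ := exists_geod S hS g
  exact ⟨l, hl ▸ hg, hl2, hp⟩

/-- Members of a weakly doubling family have uniformly polynomial growth. -/
theorem poly_growth (cl : Bool) (S : Finset G) (hS : Subgroup.closure (S : Set G) = ⊤)
    (N : ℕ) (R : ℝ) (hR : 0 < R) :
    ∃ β : ℕ, ∀ Y : Set G, LSDoubling cl (wordDist S) N R Y → ∀ k : ℕ, ∀ x : G,
      (Y ∩ ball cl (wordDist S) x (2 ^ k * R)).Finite ∧
      (Y ∩ ball cl (wordDist S) x (2 ^ k * R)).ncard ≤ N ^ k * β := by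
  classical
  have hfin := finite_ball S hS ⌈R⌉₊
  refine ⟨{g : G | wordLength S g ≤ ⌈R⌉₊}.ncard, ?_⟩
  intro Y hY k
  induction k with
  | zero =>
    intro x
    have hsub : Y ∩ ball cl (wordDist S) x (2 ^ 0 * R) ⊆
        (fun g => x * g) '' {g : G | wordLength S g ≤ ⌈R⌉₊} := by
      rintro y ⟨_, hy⟩
      refine ⟨x⁻¹ * y, ?_, by simp⟩
      have h1 : wordDist S x y ≤ R := by
        simp only [ball, Set.mem_setOf_eq, pow_zero, one_mul] at hy
        split_ifs at hy
        · exact hy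
        · exact hy.le
      have h2 : (wordLength S (x⁻¹ * y) : ℝ) ≤ (⌈R⌉₊ : ℝ) := h1.trans (Nat.le_ceil R)
      exact_mod_cast h2
    refine ⟨(hfin.image _).subset hsub, ?_⟩
    rw [pow_zero N, one_mul]
    exact (Set.ncard_le_ncard hsub (hfin.image _)).trans (Set.ncard_image_le hfin)
  | succ k ih =>
    intro x
    have hr : R ≤ 2 ^ k * R := by
      have : (1 : ℝ) ≤ 2 ^ k := one_le_pow₀ (by norm_num)
      nlinarith
    obtain ⟨c, hc⟩ := hY x (2 ^ k * R) hr
    have e : (2 : ℝ) ^ (k + 1) * R = 2 * (2 ^ k * R) := by ring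
    rw [e]
    have hsub : Y ∩ ball cl (wordDist S) x (2 * (2 ^ k * R)) ⊆
        ⋃ j, (Y ∩ ball cl (wordDist S) (c j) (2 ^ k * R)) := by
      intro y hy
      obtain ⟨j, hj⟩ := Set.mem_iUnion.1 (hc hy)
      exact Set.mem_iUnion.2 ⟨j, hy.1, hj⟩
    have hfinU : (⋃ j, (Y ∩ ball cl (wordDist S) (c j) (2 ^ k * R))).Finite :=
      Set.finite_iUnion fun j => (ih (c j)).1
    refine ⟨hfinU.subset hsub, (Set.ncard_le_ncard hsub hfinU).trans ?_⟩
    calc (⋃ j, (Y ∩ ball cl (wordDist S) (c j) (2 ^ k * R))).ncard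
        ≤ ∑ j, (Y ∩ ball cl (wordDist S) (c j) (2 ^ k * R)).ncard := by
          have := Set.ncard_iUnion_le_of_fintype
            (fun j => Y ∩ ball cl (wordDist S) (c j) (2 ^ k * R))
          exact this
      _ ≤ ∑ _j : Fin N, N ^ k * {g : G | wordLength S g ≤ ⌈R⌉₊}.ncard :=
          Finset.sum_le_sum fun j _ => (ih (c j)).2
      _ = N ^ (k + 1) * {g : G | wordLength S g ≤ ⌈R⌉₊}.ncard := by
          simp only [Finset.sum_const, Finset.card_univ, Fintype.card_fin, smul_eq_mul]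
          ring

end Pool.Agent.H786Z.WH
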