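import Mathlib
import Pool.Agent.H786Z.WH.Word
import Pool.Agent.Helper475.Kuhn

set_option autoImplicit false

open scoped Pointwise

namespace Pool.Agent.H786Z.WH

theorem exists_path {M : Type*} [Monoid M] [DecidableEq M] (T : Finset M) (h1 : (1 : M) ∈ T)
    (L : ℕ) (m : M) (hm : m ∈ T ^ L) :
    ∃ γ : ℕ → M, γ 0 = 1 ∧ γ L = m ∧ ∀ t, ∃ s ∈ T, γ (t + 1) = γ t * s := by
  induction L generalizing m with
  | zero =>
    rw [pow_zero, Finset.mem_one] at hm
    exact ⟨fun _ => 1, rfl, hm.symm, fun _ => ⟨1, h1, by simp⟩⟩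
  | succ L ih =>
    rw [pow_succ, Finset.mem_mul] at hm
    obtain ⟨m', hm', s, hs, rfl⟩ := hm
    obtain ⟨γ, h0, hL, hstep⟩ := ih m' hm'
    refine ⟨fun t => if t ≤ L then γ t else m' * s, by simp [h0], by simp, ?_⟩
    intro t
    rcases lt_trichotomy t L with h | h | h
    · obtain ⟨s', hs', e⟩ := hstep t
      refine ⟨s', hs', ?_⟩
      simp only [if_pos (show t + 1 ≤ L by omega), if_pos h.le, e]
    · subst h
      refine ⟨s, hs, ?_⟩
      simp only [if_neg (show ¬ t + 1 ≤ t by omega), if_pos (le_refl t), hL]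
    · refine ⟨1, h1, ?_⟩
      simp only [if_neg (show ¬ t + 1 ≤ L by omega), if_neg (show ¬ t ≤ L by omega), mul_one]

/-- The discrete Lebesgue covering lemma: if points of a common unit cube with the same colour lie
in the same piece and there are only `n` colours, then some piece meets two opposite faces. -/
theorem crossing {P : Type*} (n L : ℕ) (col : (ℕ → ℕ) → Fin n) (U : (ℕ → ℕ) → P)
    (mem : (ℕ → ℕ) → P → Prop) (hmem : ∀ x, mem x (U x))
    (hsame : ∀ x y y' : ℕ → ℕ, (∀ i, i < n → x i < L) →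
      (∀ i, i < n → y i = x i ∨ y i = x i + 1) → (∀ i, i < n → y' i = x i ∨ y' i = x i + 1) →
      col y = col y' → U y = U y') :
    ∃ i, i < n ∧ ∃ x z : ℕ → ℕ, (∀ j, x j ≤ L) ∧ x i = L ∧ z i = 0 ∧ mem z (U x) := by
  classical
  by_contra hcon
  let lab : P → ℕ := fun p =>
    if h : ∃ i, i < n ∧ ¬ ∃ z : ℕ → ℕ, z i = 0 ∧ mem z p then Nat.find h else n
  have lab_le : ∀ p, lab p ≤ n := by
    intro p
    simp only [lab]
    split_ifs with h
    · exact (Nat.find_spec h).1.le
    · exact le_rfl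
  obtain ⟨x, hx, hall⟩ := Pool.Agent.Helper475.Kuhn.kuhn n L (fun x => lab (U x))
    (fun x _ => lab_le _)
    (by
      intro i hi x _ hxi hL
      simp only [lab] at hL
      split_ifs at hL with h
      · have := (Nat.find_spec h).2
        rw [hL] at this
        exact this ⟨x, hxi, hmem _⟩
      · omega)
    (by
      intro i hi x hxL hxi
      have hC : i < n ∧ ¬ ∃ z : ℕ → ℕ, z i = 0 ∧ mem z (U x) := by
        refine ⟨hi, ?_⟩
        rintro ⟨z, hz, hzU⟩
        exact hcon ⟨i, hi, x, z, hxL, hxi, hz, hzU⟩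
      simp only [lab]
      rw [dif_pos ⟨i, hC⟩]
      exact Nat.find_min' _ hC)
  choose y hy _ hlam using fun j : Fin (n + 1) => hall j (Nat.lt_succ_iff.1 j.2)
  obtain ⟨j, j', hne, hcol⟩ := Fintype.exists_ne_map_eq_of_card_lt
    (fun j : Fin (n + 1) => col (y j)) (by simp)
  have hU := hsame x (y j) (y j') hx (hy j) (hy j') hcol
  have h1 := hlam j
  have h2 := hlam j'
  rw [hU] at h1
  exact hne (Fin.ext (h1.symm.trans h2))

/-- Double counting for one coordinate. -/
theorem count_coord {ι M : Type*} [Fintype ι] [DecidableEq ι] [DecidableEq M] (P : Finset M)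
    (i : ι) (B : (ι → M) → Finset M) (K : ℕ) (hB : ∀ a, (B a).card ≤ K)
    (hinv : ∀ a m, B (Function.update a i m) = B a) :
    ((Fintype.piFinset fun _ : ι => P).filter fun a => a i ∈ B a).card * P.card ≤
      (Fintype.piFinset fun _ : ι => P).card * K := by
  classical
  set A := Fintype.piFinset fun _ : ι => P with hA
  rw [← Finset.card_product]
  have h1 : ((A.filter fun a => a i ∈ B a) ×ˢ P).card ≤ (A.sigma fun a => B a).card := by
    refine Finset.card_le_card_of_injOn
      (fun p => (⟨Function.update p.1 i p.2, p.1 i⟩ : Σ _ : ι → M, M)) ?_ ?_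
    · rintro ⟨a, m⟩ hp
      simp only [Finset.coe_product, Finset.coe_filter, Set.mem_prod, Set.mem_ofPred_eq,
        Finset.mem_coe] at hp
      obtain ⟨⟨ha, hab⟩, hm⟩ := hp
      simp only [Finset.mem_coe, Finset.mem_sigma]
      refine ⟨?_, by rw [hinv]; exact hab⟩
      rw [hA, Fintype.mem_piFinset] at ha ⊢
      intro j
      by_cases hj : j = i
      · subst hj; simpa using hm
      · rw [Function.update_of_ne hj]; exact ha j
    · rintro ⟨a, m⟩ _ ⟨a', m'⟩ _ h
      simp only [Sigma.mk.injEq, heq_eq_eq] at h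
      obtain ⟨h2, h3⟩ := h
      have hm : m = m' := by simpa using congrFun h2 i
      have ha : a = a' := by
        funext j
        by_cases hj : j = i
        · subst hj; exact h3
        · simpa [Function.update_of_ne hj] using congrFun h2 j
      rw [ha, hm]
  refine h1.trans ?_
  rw [Finset.card_sigma]
  calc ∑ a ∈ A, (B a).card ≤ ∑ _a ∈ A, K := Finset.sum_le_sum fun a _ => hB a
    _ = A.card * K := by simp

theorem core {G : Type*} [Group G] (cl : Bool) (S : Finset G)
    (hS : Subgroup.closure (S : Set G) = ⊤) {M : Type*} [Monoid M] [DecidableEq M]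
    (T : Finset M) (h1 : (1 : M) ∈ T)
    (hgrow : ∀ C D : ℕ, ∃ L : ℕ, C * (L + 1) ^ D < (T ^ L).card)
    (n : ℕ) (φ : (Fin (n + 1) → M) →* G) (hφ : Function.Injective φ) :
    ¬ ∀ r : ℝ, 0 < r → ∃ 𝒴 : Set (Set G), WeaklyLSD cl (wordDist S) 𝒴 ∧
      Decomposable (wordDist S) r n 𝒴 := by
  classical
  intro hdec
  set c : ℕ := (Fintype.piFinset fun _ : Fin (n + 1) => T).sup fun s => wordLength S (φ s)
    with hc
  have hstep : ∀ u v : Fin (n + 1) → M, (∀ i, ∃ s ∈ T, v i = u i * s) →
      wordLength S ((φ u)⁻¹ * φ v) ≤ c := by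
    intro u v h
    choose s hs hsv using h
    have : v = u * s := funext hsv
    rw [this, map_mul, inv_mul_cancel_left]
    exact Finset.le_sup (f := fun s => wordLength S (φ s)) (Fintype.mem_piFinset.2 hs)
  obtain ⟨𝒴, ⟨N, _, R, hR, hY⟩, 𝒰, hsub, hdisj, hcov⟩ := hdec (2 * c + 1) (by positivity)
  have hcov' : ∀ g : G, ∃ i : Fin (n + 1), ∃ U ∈ 𝒰 i, g ∈ U := by
    intro g
    have : g ∈ ⋃ i, ⋃₀ 𝒰 i := by rw [hcov]; trivial
    obtain ⟨i, hi⟩ := Set.mem_iUnion.1 this
    obtain ⟨U, hU, hg⟩ := Set.mem_sUnion.1 hi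
    exact ⟨i, U, hU, hg⟩
  choose col U hU hgU using hcov'
  obtain ⟨β, hβ⟩ := poly_growth cl S hS N R hR
  obtain ⟨ρ, hρ⟩ := exists_nat_ge (1 / R)
  have hρR : 1 ≤ (ρ : ℝ) * R := by rwa [div_le_iff₀ hR] at hρ
  have hρ0 : 0 < ρ := by
    rcases Nat.eq_zero_or_pos ρ with h | h
    · rw [h] at hρR; norm_num at hρR
    · exact h
  obtain ⟨L, hL⟩ := hgrow ((n + 1) * ((2 * ρ * (c + 1)) ^ N * β)) (n + 1 + N)
  set P : Finset M := T ^ L with hP
  have hpath : ∀ m : M, ∃ γ : ℕ → M, γ 0 = 1 ∧ (m ∈ P → γ L = m) ∧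
      ∀ t, ∃ s ∈ T, γ (t + 1) = γ t * s := by
    intro m
    by_cases hm : m ∈ P
    · obtain ⟨γ, a, b, e⟩ := exists_path T h1 L m hm
      exact ⟨γ, a, fun _ => b, e⟩
    · exact ⟨fun _ => 1, rfl, fun h => absurd h hm, fun _ => ⟨1, h1, by simp⟩⟩
  choose γ hγ0 hγL hγs using hpath
  -- radius bound
  have hrad : ∀ (a : Fin (n + 1) → M) (k : ℕ) (t : Fin (n + 1) → ℕ), (∀ i, t i ≤ k) →
      wordLength S (φ fun i => γ (a i) (t i)) ≤ c * k := by
    intro a k
    induction k with
    | zero =>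
      intro t ht
      have : (fun i => γ (a i) (t i)) = 1 := by
        funext i
        rw [Nat.le_zero.1 (ht i), hγ0]; rfl
      rw [this, map_one, wordLength_one]
      exact Nat.zero_le _
    | succ k ih =>
      intro t ht
      have h2 := ih (fun i => min (t i) k) (fun i => min_le_right _ _)
      have h3 := hstep (fun i => γ (a i) (min (t i) k)) (fun i => γ (a i) (t i)) (by
        intro i
        by_cases h : t i ≤ k
        · exact ⟨1, h1, by simp [min_eq_left h]⟩
        · have e : t i = k + 1 := by have := ht i; omega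
          obtain ⟨s, hs, hs2⟩ := hγs (a i) k
          refine ⟨s, hs, ?_⟩
          simp only [e, hs2, min_eq_right (Nat.le_succ k)])
      have h4 := wordLength_mul S hS (φ fun i => γ (a i) (min (t i) k))
        ((φ fun i => γ (a i) (min (t i) k))⁻¹ * φ fun i => γ (a i) (t i))
      rw [mul_inv_cancel_left] at h4
      nlinarith
  -- the polynomial bound
  set Q : ℕ := ρ * (c * L + 1) with hQ
  have hQ0 : Q ≠ 0 := by positivity
  set k : ℕ := Nat.log 2 Q + 1 with hk
  have hk1 : Q < 2 ^ k := Nat.lt_pow_succ_log_self (by norm_num) Q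
  have hk2 : 2 ^ k ≤ 2 * Q := by
    rw [hk, pow_succ, mul_comm]
    exact Nat.mul_le_mul_left 2 (Nat.pow_log_le_self 2 hQ0)
  set K : ℕ := N ^ k * β with hK
  have hKle : K ≤ (2 * ρ * (c + 1)) ^ N * β * (L + 1) ^ N := by
    have a1 : N ^ k ≤ (2 ^ N) ^ k := Nat.pow_le_pow_left (Nat.lt_two_pow_self).le k
    have a2 : (2 ^ N) ^ k = (2 ^ k) ^ N := by rw [← pow_mul, ← pow_mul, mul_comm]
    have a3 : 2 ^ k ≤ 2 * ρ * (c + 1) * (L + 1) := by
      refine hk2.trans ?_
      rw [hQ]
      have : c * L + 1 ≤ (c + 1) * (L + 1) := by nlinarith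
      calc 2 * (ρ * (c * L + 1)) ≤ 2 * (ρ * ((c + 1) * (L + 1))) := by gcongr
        _ = 2 * ρ * (c + 1) * (L + 1) := by ring
    have a4 : (2 ^ k) ^ N ≤ (2 * ρ * (c + 1) * (L + 1)) ^ N := Nat.pow_le_pow_left a3 N
    calc K = N ^ k * β := hK
      _ ≤ (2 * ρ * (c + 1) * (L + 1)) ^ N * β := by
          apply Nat.mul_le_mul_right
          exact a1.trans (a2 ▸ a4)
      _ = (2 * ρ * (c + 1)) ^ N * β * (L + 1) ^ N := by rw [mul_pow]; ring
  have hball : ∀ g : G, wordLength S g ≤ c * L → g ∈ ball cl (wordDist S) 1 (2 ^ k * R) := by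
    intro g hg
    have b1 : (wordDist S 1 g) < 2 ^ k * R := by
      have b2 : ((Q : ℕ) : ℝ) < (2 : ℝ) ^ k := by exact_mod_cast hk1
      have b3 : (wordLength S g : ℝ) ≤ (c : ℝ) * L := by exact_mod_cast hg
      have b4 : ((Q : ℕ) : ℝ) = ρ * ((c : ℝ) * L + 1) := by rw [hQ]; push_cast; ring
      have b5 : (0 : ℝ) ≤ (c : ℝ) * L := by positivity
      simp only [wordDist, inv_one, one_mul]
      calc (wordLength S g : ℝ) < (c : ℝ) * L + 1 := by linarith
        _ ≤ (ρ * R) * ((c : ℝ) * L + 1) := by nlinarith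
        _ = (Q : ℝ) * R := by rw [b4]; ring
        _ ≤ 2 ^ k * R := by gcongr
    simp only [ball, Set.mem_ofPred_eq]
    split_ifs
    · exact b1.le
    · exact b1
  have hfinY : ∀ g : G, (U g ∩ ball cl (wordDist S) 1 (2 ^ k * R)).Finite ∧
      (U g ∩ ball cl (wordDist S) 1 (2 ^ k * R)).ncard ≤ K :=
    fun g => hβ (U g) (hY _ (hsub _ (hU g))) k 1
  -- bad sets
  let B : Fin (n + 1) → (Fin (n + 1) → ℕ) → (Fin (n + 1) → M) → Finset M := fun i t a =>
    ((((hfinY (φ (Function.update (fun j => γ (a j) (t j)) i 1))).1.preimage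
      hφ.injOn).toFinset).image fun u => u i)
  have hBcard : ∀ i t a, (B i t a).card ≤ K := by
    intro i t a
    refine Finset.card_image_le.trans ?_
    rw [← Set.ncard_eq_toFinset_card _
      ((hfinY (φ (Function.update (fun j => γ (a j) (t j)) i 1))).1.preimage hφ.injOn)]
    refine le_trans ?_ (hfinY (φ (Function.update (fun j => γ (a j) (t j)) i 1))).2
    exact Set.ncard_le_ncard_of_injOn φ (fun u hu => hu) hφ.injOn (hfinY _).1
  have hBinv : ∀ i t a m, B i t (Function.update a i m) = B i t a := by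
    intro i t a m
    have e : Function.update (fun j => γ (Function.update a i m j) (t j)) i 1 =
        Function.update (fun j => γ (a j) (t j)) i 1 := by
      funext j
      by_cases hj : j = i
      · subst hj; simp
      · simp [Function.update_of_ne hj]
    simp only [B, e]
  set A := Fintype.piFinset fun _ : Fin (n + 1) => P with hA
  set Tt := Fintype.piFinset fun _ : Fin (n + 1) => Finset.range (L + 1) with hTt
  have hcover : A ⊆ (Finset.univ ×ˢ Tt).biUnion
      fun p : Fin (n + 1) × (Fin (n + 1) → ℕ) => A.filter fun a => a p.1 ∈ B p.1 p.2 a := by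
    intro a ha
    let f : (ℕ → ℕ) → G := fun x => φ fun j => γ (a j) (L - x j)
    obtain ⟨i, hi, x, z, hx, hxi, hzi, hzU⟩ := crossing (n + 1) L (fun x => col (f x))
      (fun x => U (f x)) (fun z V => f z ∈ V) (fun x => hgU _) (by
        intro x y y' hx hy hy' hcol
        by_contra hne
        have h2 : U (f y') ∈ 𝒰 (col (f y)) := by rw [hcol]; exact hU _
        have h3 := hdisj (col (f y)) _ (hU (f y)) _ h2 hne _ (hgU _) _ (hgU _)
        have key : ∀ w : ℕ → ℕ, (∀ i, i < n + 1 → w i = x i ∨ w i = x i + 1) →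
            wordLength S ((φ fun j => γ (a j) (L - x j - 1))⁻¹ * f w) ≤ c := by
          intro w hw
          apply hstep
          intro j
          have hxj := hx j j.2
          rcases hw j j.2 with h | h
          · obtain ⟨s, hs, hs2⟩ := hγs (a j) (L - x j - 1)
            refine ⟨s, hs, ?_⟩
            rw [← hs2, h]
            congr 1
            omega
          · refine ⟨1, h1, ?_⟩
            rw [mul_one, h]
            congr 1
        have k1 := key y hy
        have k2 := key y' hy'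
        have k3 := wordLength_mul S hS ((φ fun j => γ (a j) (L - x j - 1))⁻¹ * f y)⁻¹
          ((φ fun j => γ (a j) (L - x j - 1))⁻¹ * f y')
        have k4 := wordLength_inv S hS ((φ fun j => γ (a j) (L - x j - 1))⁻¹ * f y)
        have e : ((φ fun j => γ (a j) (L - x j - 1))⁻¹ * f y)⁻¹ *
            ((φ fun j => γ (a j) (L - x j - 1))⁻¹ * f y') = (f y)⁻¹ * f y' := by group
        rw [e] at k3
        have k5 : wordLength S ((f y)⁻¹ * f y') ≤ 2 * c := by omega
        have k6 : (wordLength S ((f y)⁻¹ * f y') : ℝ) ≤ 2 * c := by exact_mod_cast k5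
        simp only [wordDist] at h3
        linarith)
    rw [Finset.mem_biUnion]
    refine ⟨(⟨i, hi⟩, fun j => L - x j), ?_, ?_⟩
    · simp only [Finset.mem_product, Finset.mem_univ, true_and, hTt, Fintype.mem_piFinset,
        Finset.mem_range]
      intro j
      omega
    · rw [Finset.mem_filter]
      refine ⟨ha, ?_⟩
      simp only [B, Finset.mem_image, Set.Finite.mem_toFinset, Set.mem_preimage]
      refine ⟨fun j => γ (a j) (L - z j), ⟨?_, ?_⟩, ?_⟩
      · have e : Function.update (fun j : Fin (n + 1) => γ (a j) (L - x j)) ⟨i, hi⟩ 1 =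
            fun j : Fin (n + 1) => γ (a j) (L - x j) := by
          funext j
          by_cases hj : j = ⟨i, hi⟩
          · subst hj; simp [hxi, hγ0]
          · simp [Function.update_of_ne hj]
        rw [e]
        exact hzU
      · exact hball _ (hrad a L (fun j => L - z j) (fun j => Nat.sub_le _ _))
      · simp only [hzi, Nat.sub_zero]
        exact hγL _ (Fintype.mem_piFinset.1 ha _)
  have hApos : 0 < A.card := by
    rw [Finset.card_pos]
    refine ⟨fun _ => 1, Fintype.mem_piFinset.2 fun _ => ?_⟩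
    exact Finset.one_mem_pow h1
  have c1 : A.card * P.card ≤ (n + 1) * (L + 1) ^ (n + 1) * (A.card * K) := by
    calc A.card * P.card
        ≤ (∑ p ∈ Finset.univ ×ˢ Tt, (A.filter fun a => a p.1 ∈ B p.1 p.2 a).card) * P.card :=
          Nat.mul_le_mul_right _ ((Finset.card_le_card hcover).trans Finset.card_biUnion_le)
      _ = ∑ p ∈ Finset.univ ×ˢ Tt, (A.filter fun a => a p.1 ∈ B p.1 p.2 a).card * P.card :=
          Finset.sum_mul _ _ _
      _ ≤ ∑ _p ∈ (Finset.univ : Finset (Fin (n + 1))) ×ˢ Tt, A.card * K :=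
          Finset.sum_le_sum fun p _ =>
            count_coord P p.1 (B p.1 p.2) K (hBcard p.1 p.2) (hBinv p.1 p.2)
      _ = (n + 1) * (L + 1) ^ (n + 1) * (A.card * K) := by
          simp [hTt, Finset.card_product, Fintype.card_piFinset]
  have c2 : P.card ≤ (n + 1) * (L + 1) ^ (n + 1) * K := by
    have : A.card * P.card ≤ A.card * ((n + 1) * (L + 1) ^ (n + 1) * K) := by
      refine c1.trans (le_of_eq ?_); ring
    exact Nat.le_of_mul_le_mul_left this hApos
  have c3 : (n + 1) * (L + 1) ^ (n + 1) * K ≤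
      (n + 1) * ((2 * ρ * (c + 1)) ^ N * β) * (L + 1) ^ (n + 1 + N) := by
    calc (n + 1) * (L + 1) ^ (n + 1) * K
        ≤ (n + 1) * (L + 1) ^ (n + 1) * ((2 * ρ * (c + 1)) ^ N * β * (L + 1) ^ N) := by gcongr
      _ = (n + 1) * ((2 * ρ * (c + 1)) ^ N * β) * (L + 1) ^ (n + 1 + N) := by ring
  omega

theorem wHyperdim_eq_top {G : Type*} [Group G] (cl : Bool) (S : Finset G)
    (hS : Subgroup.closure (S : Set G) = ⊤) {M : Type*} [Monoid M] [DecidableEq M]
    (T : Finset M) (h1 : (1 : M) ∈ T)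
    (hgrow : ∀ C D : ℕ, ∃ L : ℕ, C * (L + 1) ^ D < (T ^ L).card)
    (hemb : ∀ n : ℕ, ∃ φ : (Fin n → M) →* G, Function.Injective φ) :
    wHyperdim cl (wordDist S) = ⊤ := by
  unfold wHyperdim
  rw [sInf_eq_top]
  rintro _ ⟨n, hn, rfl⟩
  obtain ⟨φ, hφ⟩ := hemb (n + 1)
  exact absurd hn (core cl S hS T h1 hgrow n φ hφ)

end Pool.Agent.H786Z.WH
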