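import Mathlib
import Pool.Agent.H786Z.WH.Core
import Pool.Agent.H786Z.WH.GrigBase

set_option autoImplicit false

open scoped Pointwise

namespace Pool.Agent.H786Z.WH

theorem pi_emb {M : Type*} [Monoid M] (ψ : M × M →* M) (hψ : Function.Injective ψ) (m : ℕ) :
    ∃ φ : (Fin m → M) →* M, Function.Injective φ := by
  induction m with
  | zero => exact ⟨1, fun a b _ => Subsingleton.elim a b⟩
  | succ m ih =>
    obtain ⟨φ, hφ⟩ := ih
    let tl : (Fin (m + 1) → M) →* (Fin m → M) :=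
      { toFun := fun w i => w i.succ, map_one' := rfl, map_mul' := fun _ _ => rfl }
    refine ⟨ψ.comp ((Pi.evalMonoidHom (fun _ => M) 0).prod (φ.comp tl)), ?_⟩
    intro a b h
    have h2 := hψ h
    simp only [MonoidHom.prod_apply, Pi.evalMonoidHom_apply, MonoidHom.comp_apply,
      Prod.mk.injEq] at h2
    have h3 := hφ h2.2
    funext i
    refine Fin.cases h2.1 (fun j => congrFun h3 j) i

theorem grow_of_selfsim {M : Type*} [Group M] [DecidableEq M] [Infinite M] [hfg : Group.FG M]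
    (hemb : ∀ m : ℕ, ∃ φ : (Fin m → M) →* M, Function.Injective φ) :
    ∃ T : Finset M, (1 : M) ∈ T ∧ ∀ C D : ℕ, ∃ L : ℕ, C * (L + 1) ^ D < (T ^ L).card := by
  obtain ⟨S, hS⟩ := hfg.out
  set T : Finset M := insert 1 (S ∪ S.image fun x => x⁻¹) with hT
  have h1 : (1 : M) ∈ T := Finset.mem_insert_self _ _
  have hall : ∀ g : M, ∃ n : ℕ, g ∈ T ^ n := by
    intro g
    obtain ⟨l, hl, rfl⟩ := exists_word S hS g
    refine ⟨l.length, ?_⟩
    induction l with
    | nil => simp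
    | cons x l ih =>
      rw [List.length_cons, pow_succ', List.prod_cons]
      refine Finset.mul_mem_mul ?_ (ih fun s hs => hl s (List.mem_cons_of_mem _ hs))
      rw [hT, Finset.mem_insert, Finset.mem_union, Finset.mem_image]
      rcases hl x List.mem_cons_self with h | h
      · exact Or.inr (Or.inl h)
      · exact Or.inr (Or.inr ⟨x⁻¹, h, by simp⟩)
  choose e he using hall
  have hcl : Subgroup.closure (T : Set M) = ⊤ := by
    rw [eq_top_iff, ← hS]
    apply Subgroup.closure_mono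
    intro x hx
    simp only [hT, Finset.coe_insert, Finset.coe_union, Set.mem_insert_iff, Set.mem_union]
    exact Or.inr (Or.inl hx)
  have hlin : ∀ n, n + 1 ≤ (T ^ n).card := by
    apply Finset.add_one_le_card_pow h1
    rw [hcl]
    exact Set.infinite_univ
  refine ⟨T, h1, ?_⟩
  intro C D
  obtain ⟨φ, hφ⟩ := hemb (D + 1)
  set c : ℕ := (Fintype.piFinset fun _ : Fin (D + 1) => T).sup fun s => e (φ s) with hc
  have hs : ∀ s ∈ Fintype.piFinset fun _ : Fin (D + 1) => T, φ s ∈ T ^ c := by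
    intro s hs
    exact Finset.pow_subset_pow_right h1 (Finset.le_sup (f := fun s => e (φ s)) hs) (he _)
  have hmap : ∀ L : ℕ, ∀ u ∈ Fintype.piFinset fun _ : Fin (D + 1) => T ^ L, φ u ∈ T ^ (c * L) := by
    intro L
    induction L with
    | zero =>
      intro u hu
      have : u = 1 := by
        funext i
        have := Fintype.mem_piFinset.1 hu i
        simpa using this
      rw [this, map_one]
      simp
    | succ L ih =>
      intro u hu
      have h2 : ∀ i, ∃ a ∈ T ^ L, ∃ b ∈ T, a * b = u i := by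
        intro i
        have := Fintype.mem_piFinset.1 hu i
        rw [pow_succ, Finset.mem_mul] at this
        exact this
      choose a ha b hb hab using h2
      have : u = a * b := funext fun i => (hab i).symm
      rw [this, map_mul, mul_add, mul_one, pow_add]
      exact Finset.mul_mem_mul (ih a (Fintype.mem_piFinset.2 ha)) (hs b (Fintype.mem_piFinset.2 hb))
  set L : ℕ := C * (c + 1) ^ D with hL
  refine ⟨c * L, ?_⟩
  have h2 : (Fintype.piFinset fun _ : Fin (D + 1) => T ^ L).card ≤ (T ^ (c * L)).card :=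
    Finset.card_le_card_of_injOn φ (fun u hu => hmap L u hu) hφ.injOn
  rw [Fintype.card_piFinset] at h2
  simp only [Finset.prod_const, Finset.card_univ, Fintype.card_fin] at h2
  have h3 : (L + 1) ^ (D + 1) ≤ (T ^ L).card ^ (D + 1) := Nat.pow_le_pow_left (hlin L) _
  have h4 : (c * L + 1) ^ D ≤ ((c + 1) * (L + 1)) ^ D := Nat.pow_le_pow_left (by nlinarith) _
  have h5 : 0 < (L + 1) ^ D := by positivity
  calc C * (c * L + 1) ^ D ≤ C * ((c + 1) * (L + 1)) ^ D := Nat.mul_le_mul_left _ h4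
    _ = L * (L + 1) ^ D := by rw [mul_pow, hL]; ring
    _ < (L + 1) * (L + 1) ^ D := by nlinarith
    _ = (L + 1) ^ (D + 1) := by ring
    _ ≤ _ := h3.trans h2

namespace Grig

theorem finite_of_rel {Q : Type*} [Group Q] (A B C D : Q) (hA : A ^ 2 = 1) (hB : B ^ 2 = 1)
    (hD : D ^ 2 = 1) (hAD : (A * D) ^ 4 = 1) (hAB : A * B = B * A) (hBD : B * D = C)
    (hDB : D * B = C) (hcl : Subgroup.closure ({A, B, C, D} : Set Q) = ⊤) : Finite Q := by
  have hA' : A⁻¹ = A := inv_eq_of_mul_eq_one_left (by rw [← pow_two]; exact hA)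
  have hB' : B⁻¹ = B := inv_eq_of_mul_eq_one_left (by rw [← pow_two]; exact hB)
  have hD' : D⁻¹ = D := inv_eq_of_mul_eq_one_left (by rw [← pow_two]; exact hD)
  have hDx : D = A * (A * D) := by rw [← mul_assoc, ← pow_two, hA, one_mul]
  have hBx : Commute B (A * D) := by
    have h1 : Commute B A := hAB.symm
    have h2 : Commute B D := hBD.trans hDB.symm
    exact h1.mul_right h2
  have hAx : A * (A * D) * A⁻¹ = (A * D)⁻¹ := by
    rw [← hDx, mul_inv_rev, hD']
  generalize A * D = x at *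
  set S : Set Q := {q | ∃ i j k : ℤ, q = B ^ i * x ^ j * A ^ k} with hS
  have hSB : ∀ q ∈ S, B * q ∈ S := by
    rintro q ⟨i, j, k, rfl⟩
    exact ⟨i + 1, j, k, by rw [add_comm i 1, zpow_add, zpow_one]; simp only [mul_assoc]⟩
  have hSA : ∀ q ∈ S, A * q ∈ S := by
    rintro q ⟨i, j, k, rfl⟩
    refine ⟨i, -j, k + 1, ?_⟩
    have h1 : Commute A (B ^ i) := Commute.zpow_right hAB i
    have h2 : A * x ^ j = x ^ (-j) * A := by
      have h3 : A * x ^ j * A⁻¹ = x ^ (-j) := by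
        rw [← conj_zpow, hAx, inv_zpow, zpow_neg]
      rw [← h3]; group
    calc A * (B ^ i * x ^ j * A ^ k) = (A * B ^ i) * x ^ j * A ^ k := by simp only [mul_assoc]
      _ = B ^ i * (A * x ^ j) * A ^ k := by rw [h1.eq]; simp only [mul_assoc]
      _ = B ^ i * x ^ (-j) * A ^ (k + 1) := by
        rw [h2, add_comm k 1, zpow_add, zpow_one]; simp only [mul_assoc]
  have hSx : ∀ q ∈ S, x * q ∈ S := by
    rintro q ⟨i, j, k, rfl⟩
    refine ⟨i, j + 1, k, ?_⟩
    have h1 : x * B ^ i = B ^ i * x := (hBx.zpow_left i).symm.eq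
    calc x * (B ^ i * x ^ j * A ^ k) = (x * B ^ i) * x ^ j * A ^ k := by simp only [mul_assoc]
      _ = B ^ i * x ^ (j + 1) * A ^ k := by
        rw [h1, add_comm j 1, zpow_add, zpow_one]; simp only [mul_assoc]
  have hSD : ∀ q ∈ S, D * q ∈ S := by
    intro q hq
    rw [hDx, mul_assoc]
    exact hSA _ (hSx _ hq)
  have hSC : ∀ q ∈ S, C * q ∈ S := by
    intro q hq
    rw [← hBD, mul_assoc]
    exact hSB _ (hSD _ hq)
  have hC' : C⁻¹ = C := by rw [← hBD, mul_inv_rev, hD', hB', hDB, hBD]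
  have hall : ∀ q : Q, q ∈ S := by
    intro q
    have hq : q ∈ Subgroup.closure ({A, B, C, D} : Set Q) := by rw [hcl]; trivial
    induction hq using Subgroup.closure_induction_left with
    | one => exact ⟨0, 0, 0, by simp⟩
    | mul_left y hy z _ ih =>
      simp only [Set.mem_insert_iff, Set.mem_singleton_iff] at hy
      rcases hy with rfl | rfl | rfl | rfl
      · exact hSA _ ih
      · exact hSB _ ih
      · exact hSC _ ih
      · exact hSD _ ih
    | inv_mul_cancel y hy z _ ih =>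
      simp only [Set.mem_insert_iff, Set.mem_singleton_iff] at hy
      rcases hy with rfl | rfl | rfl | rfl
      · rw [hA']; exact hSA _ ih
      · rw [hB']; exact hSB _ ih
      · rw [hC']; exact hSC _ ih
      · rw [hD']; exact hSD _ ih
  have fin : ∀ (y : Q) (n : ℕ), 0 < n → y ^ n = 1 → ((Subgroup.zpowers y : Subgroup Q) : Set Q).Finite :=
    fun y n hn hy => finite_zpowers.2 (isOfFinOrder_iff_pow_eq_one.2 ⟨n, hn, hy⟩)
  have hfin : S.Finite := by
    refine (((fin B 2 (by norm_num) hB).mul (fin x 4 (by norm_num) hAD)).mul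
      (fin A 2 (by norm_num) hA)).subset ?_
    rintro q ⟨i, j, k, rfl⟩
    exact Set.mul_mem_mul (Set.mul_mem_mul (Subgroup.mem_zpowers_iff.2 ⟨i, rfl⟩)
      (Subgroup.mem_zpowers_iff.2 ⟨j, rfl⟩)) (Subgroup.mem_zpowers_iff.2 ⟨k, rfl⟩)
  exact Set.finite_univ_iff.1 (hfin.subset (fun q _ => hall q))

theorem closure_gens : Subgroup.closure
    ({⟨pa, pa_mem⟩, ⟨pb, pb_mem⟩, ⟨pc, pc_mem⟩, ⟨pd, pd_mem⟩} : Set Grigorchuk) = ⊤ := by
  have h := Subgroup.closure_closure_coe_preimage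
    (k := ({pa, pb, pc, pd} : Set (Equiv.Perm (List Bool))))
  refine Eq.trans ?_ h
  refine congrArg _ ?_
  ext ⟨x, hx⟩
  simp only [Set.mem_insert_iff, Set.mem_singleton_iff, Subtype.mk.injEq]
  exact Iff.rfl

theorem ad_four : (pa * pd) ^ 4 = 1 := by
  ext1 w
  rcases w with (_ | ⟨_ | _, w⟩) <;> simp [pow_succ]

/-- The normal closure of `(ab)^2` as a subgroup of the Grigorchuk group. -/
def KG : Subgroup Grigorchuk := KK.subgroupOf Grigorchuk

instance KG_normal : KG.Normal := ⟨fun k hk g => KK_conj g.2 hk⟩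

theorem finite_quotient : Finite (Grigorchuk ⧸ KG) := by
  let π : Grigorchuk →* Grigorchuk ⧸ KG := QuotientGroup.mk' KG
  have hπ : ∀ x y : Grigorchuk, (x : Equiv.Perm (List Bool)) = y → π x = π y := fun x y e => by
    rw [Subtype.ext e]
  have eA : (π ⟨pa, pa_mem⟩) ^ 2 = 1 := by
    rw [← map_pow, ← map_one π]
    exact hπ _ _ (by rw [Subgroup.coe_pow, pow_two]; ext1 w; simp)
  have eB : (π ⟨pb, pb_mem⟩) ^ 2 = 1 := by
    rw [← map_pow, ← map_one π]
    exact hπ _ _ (by rw [Subgroup.coe_pow, pow_two]; ext1 w; simp)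
  have eD : (π ⟨pd, pd_mem⟩) ^ 2 = 1 := by
    rw [← map_pow, ← map_one π]
    exact hπ _ _ (by rw [Subgroup.coe_pow, pow_two]; ext1 w; simp)
  have eAD : (π ⟨pa, pa_mem⟩ * π ⟨pd, pd_mem⟩) ^ 4 = 1 := by
    rw [← map_mul, ← map_pow, ← map_one π]
    exact hπ _ _ (by rw [Subgroup.coe_pow]; exact ad_four)
  have eBD : π ⟨pb, pb_mem⟩ * π ⟨pd, pd_mem⟩ = π ⟨pc, pc_mem⟩ := by
    rw [← map_mul]
    exact hπ _ _ (by ext1 w; exact (klein w).2.2.2.2.2)
  have eDB : π ⟨pd, pd_mem⟩ * π ⟨pb, pb_mem⟩ = π ⟨pc, pc_mem⟩ := by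
    rw [← map_mul]
    exact hπ _ _ (by ext1 w; exact (klein w).2.2.1)
  have eAB0 : (π ⟨pa, pa_mem⟩ * π ⟨pb, pb_mem⟩) ^ 2 = 1 := by
    rw [← map_mul, ← map_pow]
    refine (QuotientGroup.eq_one_iff _).2 ?_
    show ((pa * pb) ^ 2 : Equiv.Perm (List Bool)) ∈ KK
    have : (pa * pb) ^ 2 = tt := by rw [pow_two, tt]; simp only [mul_assoc]
    rw [this]
    exact tt_mem_KK
  have eAB : π ⟨pa, pa_mem⟩ * π ⟨pb, pb_mem⟩ = π ⟨pb, pb_mem⟩ * π ⟨pa, pa_mem⟩ := by
    have hA' : (π ⟨pa, pa_mem⟩)⁻¹ = π ⟨pa, pa_mem⟩ :=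
      inv_eq_of_mul_eq_one_left (by rw [← pow_two]; exact eA)
    have hB' : (π ⟨pb, pb_mem⟩)⁻¹ = π ⟨pb, pb_mem⟩ :=
      inv_eq_of_mul_eq_one_left (by rw [← pow_two]; exact eB)
    have h1 : (π ⟨pa, pa_mem⟩ * π ⟨pb, pb_mem⟩)⁻¹ = π ⟨pa, pa_mem⟩ * π ⟨pb, pb_mem⟩ :=
      inv_eq_of_mul_eq_one_left (by rw [← pow_two]; exact eAB0)
    rw [← h1, mul_inv_rev, hA', hB']
  refine finite_of_rel (π ⟨pa, pa_mem⟩) (π ⟨pb, pb_mem⟩) (π ⟨pc, pc_mem⟩) (π ⟨pd, pd_mem⟩)
    eA eB eD eAD eAB eBD eDB ?_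
  have h2 := congrArg (Subgroup.map π) closure_gens
  rw [MonoidHom.map_closure, Subgroup.map_top_of_surjective π (QuotientGroup.mk'_surjective KG)]
    at h2
  rw [← h2]
  congr 1
  simp only [Set.image_insert_eq, Set.image_singleton]

instance fgG : Group.FG Grigorchuk := by
  classical
  refine ⟨⟨{⟨pa, pa_mem⟩, ⟨pb, pb_mem⟩, ⟨pc, pc_mem⟩, ⟨pd, pd_mem⟩}, ?_⟩⟩
  rw [← closure_gens]
  congr 1
  simp

instance KG_finiteIndex : KG.FiniteIndex := by
  have := finite_quotient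
  exact Subgroup.finiteIndex_of_finite_quotient

instance fgK : Group.FG KG := Subgroup.fg_of_index_ne_zero KG

theorem d1_mul (g h : Equiv.Perm (List Bool)) : d1 (g * h) = d1 g * d1 h := by
  ext1 w
  rcases w with (_ | ⟨_ | _, w⟩) <;> simp

theorem d0_d1 (g h : Equiv.Perm (List Bool)) : d1 g * d0 h = d0 h * d1 g := by
  ext1 w
  rcases w with (_ | ⟨_ | _, w⟩) <;> simp

/-- The embedding of `K × K` in `K`. -/
def pairK : KG × KG →* KG where
  toFun p := ⟨⟨d0 p.1.1.1 * d1 p.2.1.1,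
    KK_le (mul_mem (d0_mem_KK p.1.2) (d1_mem_KK p.2.2))⟩,
    (mul_mem (d0_mem_KK p.1.2) (d1_mem_KK p.2.2) : d0 p.1.1.1 * d1 p.2.1.1 ∈ KK)⟩
  map_one' := by
    apply Subtype.ext
    apply Subtype.ext
    ext1 w
    rcases w with (_ | ⟨_ | _, w⟩) <;> rfl
  map_mul' p q := by
    apply Subtype.ext
    apply Subtype.ext
    ext1 w
    rcases w with (_ | ⟨_ | _, w⟩) <;> rfl

theorem pairK_inj : Function.Injective pairK := by
  intro p q h
  have h2 : d0 p.1.1.1 * d1 p.2.1.1 = d0 q.1.1.1 * d1 q.2.1.1 :=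
    congrArg (fun x : KG => x.1.1) h
  refine Prod.ext ?_ ?_
  · apply Subtype.ext
    apply Subtype.ext
    ext1 w
    have := congrArg (fun g : Equiv.Perm (List Bool) => g (false :: w)) h2
    simpa using this
  · apply Subtype.ext
    apply Subtype.ext
    ext1 w
    have := congrArg (fun g : Equiv.Perm (List Bool) => g (true :: w)) h2
    simpa using this

instance nontrivK : Nontrivial KG := by
  refine ⟨⟨⟨tt, tt_mem⟩, tt_mem_KK⟩, 1, ?_⟩
  intro h
  have h2 : tt = 1 := congrArg (fun x : KG => x.1.1) h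
  have h3 := congrArg (fun g : Equiv.Perm (List Bool) => g [false, false]) h2
  simp [tt] at h3

instance infK : Infinite KG := by
  by_contra h
  rw [not_infinite_iff_finite] at h
  have h1 := Nat.card_le_card_of_injective pairK pairK_inj
  rw [Nat.card_prod] at h1
  have h2 : 1 < Nat.card KG := Finite.one_lt_card
  nlinarith

theorem main (cl : Bool) (S : Finset Grigorchuk)
    (hS : Subgroup.closure (S : Set Grigorchuk) = ⊤) : wHyperdim cl (wordDist S) = ⊤ := by
  classical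
  have hemb := pi_emb pairK pairK_inj
  obtain ⟨T, h1, hT⟩ := grow_of_selfsim hemb
  refine wHyperdim_eq_top cl S hS T h1 hT ?_
  intro n
  obtain ⟨φ, hφ⟩ := hemb n
  exact ⟨KG.subtype.comp φ, KG.subtype_injective.comp hφ⟩

end Grig

end Pool.Agent.H786Z.WH
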