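import Mathlib
import Pool.Agent.H786Z.WH.Core

set_option autoImplicit false

open scoped Pointwise

namespace Pool.Agent.H786Z.WH.Thomp

/-! ### Relations in the presented group -/

def A : ThompsonF := PresentedGroup.of 0
def B : ThompsonF := PresentedGroup.of 1
def Z (j : ℕ) : ThompsonF := (A ^ j)⁻¹ * B * A ^ j

theorem Z_succ (j : ℕ) : Z (j + 1) = A⁻¹ * Z j * A := by
  unfold Z; rw [pow_succ]; group

theorem commute_of_comm {G : Type*} [Group G] {x y : G} (h : comm x y = 1) : Commute x y := by
  unfold comm at h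
  have : x * y = (x * y * x⁻¹ * y⁻¹) * (y * x) := by group
  rw [h, one_mul] at this
  exact this

theorem rel_one {r : FreeGroup (Fin 2)} (h : r ∈ thompsonRels) :
    PresentedGroup.mk thompsonRels r = 1 := PresentedGroup.one_of_mem h

theorem c1 : Commute (A * B⁻¹) (Z 1) := by
  apply commute_of_comm
  have := rel_one (r := comm (genA * genB⁻¹) (genA⁻¹ * genB * genA)) (Or.inl rfl)
  simp only [comm, map_mul, map_inv] at this
  simp only [comm, Z, pow_one]
  exact this

theorem c2 : Commute (A * B⁻¹) (Z 2) := by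
  apply commute_of_comm
  have := rel_one (r := comm (genA * genB⁻¹) ((genA ^ 2)⁻¹ * genB * genA ^ 2)) (Or.inr rfl)
  simp only [comm, map_mul, map_inv, map_pow] at this
  simp only [comm, Z]
  exact this

theorem conj_of_commute {j : ℕ} (h : Commute (A * B⁻¹) (Z j)) (i : ℕ) :
    (Z i)⁻¹ * Z (i + j) * Z i = Z (i + j + 1) := by
  have h1 : B⁻¹ * Z j * B = Z (j + 1) := by
    rw [Z_succ]
    have h2 := h.eq
    calc B⁻¹ * Z j * B = A⁻¹ * (A * B⁻¹ * Z j) * B := by group
      _ = A⁻¹ * (Z j * (A * B⁻¹)) * B := by rw [h2]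
      _ = A⁻¹ * Z j * A := by group
  have h3 : ∀ m, Z (i + m) = (A ^ i)⁻¹ * Z m * A ^ i := by
    intro m
    unfold Z
    rw [add_comm i m, pow_add]; group
  rw [add_assoc, h3 (j + 1), ← h1, h3 j]
  unfold Z
  group

theorem commute_all (j : ℕ) : Commute (A * B⁻¹) (Z (j + 1)) ∧ Commute (A * B⁻¹) (Z (j + 2)) := by
  induction j with
  | zero => exact ⟨c1, c2⟩
  | succ j ih =>
    refine ⟨ih.2, ?_⟩
    have h := conj_of_commute ih.1 1
    have e1 : 1 + (j + 1) = j + 2 := by ring
    rw [e1] at h
    have e2 : j + 1 + 2 = j + 2 + 1 := by ring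
    rw [e2, ← h]
    exact (c1.inv_right.mul_right ih.2).mul_right c1

theorem Z_conj {i m : ℕ} (h : i < m) : (Z i)⁻¹ * Z m * Z i = Z (m + 1) := by
  obtain ⟨j, rfl⟩ : ∃ j, m = i + (j + 1) := ⟨m - i - 1, by omega⟩
  exact conj_of_commute (commute_all j).1 i

theorem w_commute {k m : ℕ} (h : k + 2 ≤ m) : Commute (Z k * (Z (k + 1))⁻¹) (Z m) := by
  have h1 := Z_conj (show k < m by omega)
  have h2 := Z_conj (show k + 1 < m by omega)
  have h3 : (Z k)⁻¹ * Z m * Z k = (Z (k + 1))⁻¹ * Z m * Z (k + 1) := h1.trans h2.symm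
  show Z k * (Z (k + 1))⁻¹ * Z m = Z m * (Z k * (Z (k + 1))⁻¹)
  calc Z k * (Z (k + 1))⁻¹ * Z m
      = Z k * ((Z (k + 1))⁻¹ * Z m * Z (k + 1)) * (Z (k + 1))⁻¹ := by group
    _ = Z k * ((Z k)⁻¹ * Z m * Z k) * (Z (k + 1))⁻¹ := by rw [h3]
    _ = Z m * (Z k * (Z (k + 1))⁻¹) := by group

/-- the two ping-pong generators of block `j` -/
def gen (j : ℕ) : Bool → ThompsonF
  | true => Z (3 * j + 1) * (Z (3 * j))⁻¹
  | false => Z (3 * j + 1) * (Z (3 * j + 2))⁻¹

theorem gen_commute_Z (j : ℕ) (b : Bool) {m : ℕ} (h : 3 * j + 3 ≤ m) : Commute (gen j b) (Z m) := by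
  cases b
  · exact w_commute (k := 3 * j + 1) (by omega)
  · have := (w_commute (k := 3 * j) (m := m) (by omega)).inv_left
    simpa [gen] using this

theorem gen_commute {j j' : ℕ} (h : j < j') (b b' : Bool) : Commute (gen j b) (gen j' b') := by
  cases b'
  · exact (gen_commute_Z j b (by omega)).mul_right (gen_commute_Z j b (by omega)).inv_right
  · exact (gen_commute_Z j b (by omega)).mul_right (gen_commute_Z j b (by omega)).inv_right

/-- the free monoid in block `j` -/
def blk (j : ℕ) : FreeMonoid Bool →* ThompsonF := FreeMonoid.lift (gen j)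

theorem blk_commute {j j' : ℕ} (h : j < j') (u v : FreeMonoid Bool) :
    Commute (blk j u) (blk j' v) := by
  induction u using FreeMonoid.inductionOn' with
  | one => simp
  | of_mul b u ih =>
    rw [map_mul]
    refine Commute.mul_left ?_ ih
    simp only [blk, FreeMonoid.lift_eval_of]
    clear ih
    induction v using FreeMonoid.inductionOn' with
    | one => simp
    | of_mul b' v ih' =>
      rw [map_mul]
      refine Commute.mul_right ?_ ih'
      simp only [FreeMonoid.lift_eval_of]
      exact gen_commute h b b'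

/-! ### The piecewise linear model -/

noncomputable def hf (k t : ℝ) : ℝ := if t ≤ k then t else if t ≤ k + 2 then (t + k) / 2 else t - 1
noncomputable def gf (k t : ℝ) : ℝ := if t ≤ k then t else if t ≤ k + 1 then 2 * t - k else t + 1

noncomputable def hp (k : ℝ) : Equiv.Perm ℝ where
  toFun := hf k
  invFun := gf k
  left_inv t := by
    unfold hf gf
    split_ifs <;> linarith
  right_inv t := by
    unfold hf gf
    split_ifs <;> linarith

theorem hp_apply (k t : ℝ) : hp k t = hf k t := rfl
theorem hp_inv_apply (k t : ℝ) : (hp k)⁻¹ t = gf k t := rfl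

theorem hp_conj {k : ℝ} (hk : 1 ≤ k) : (hp 0)⁻¹ * hp k * hp 0 = hp (k + 1) := by
  ext t
  simp only [Equiv.Perm.mul_apply, hp_apply, hp_inv_apply]
  unfold hf gf
  split_ifs <;> linarith

theorem hp_commute {k : ℝ} (hk : 2 ≤ k) : Commute (hp 0 * (hp 1)⁻¹) (hp k) := by
  show _ * _ = _ * _
  ext t
  simp only [Equiv.Perm.mul_apply, hp_apply, hp_inv_apply]
  rcases le_total t 2 with h | h
  · have e1 : hf k t = t := by unfold hf; split_ifs <;> linarith
    have e2 : hf 0 (gf 1 t) ≤ 2 := by unfold hf gf; split_ifs <;> linarith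
    have e3 : hf k (hf 0 (gf 1 t)) = hf 0 (gf 1 t) := by
      generalize hf 0 (gf 1 t) = s at e2
      unfold hf; split_ifs <;> linarith
    rw [e1, e3]
  · have e1 : ∀ s, 2 ≤ s → hf 0 (gf 1 s) = s := by
      intro s hs; unfold hf gf; split_ifs <;> linarith
    have e2 : 2 ≤ hf k t := by unfold hf; split_ifs <;> linarith
    rw [e1 _ e2, e1 _ h]

noncomputable def img : Fin 2 → Equiv.Perm ℝ := ![hp 0, hp 1]

theorem comm_eq_one {G : Type*} [Group G] {x y : G} (h : Commute x y) : comm x y = 1 := by
  unfold comm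
  rw [h.eq]; group

theorem img_rel : ∀ r ∈ thompsonRels, FreeGroup.lift img r = 1 := by
  have a0 : FreeGroup.lift img genA = hp 0 := by simp [genA, img]
  have a1 : FreeGroup.lift img genB = hp 1 := by simp [genB, img]
  have e2 : (hp 0)⁻¹ * hp 1 * hp 0 = hp (1 + 1) := hp_conj le_rfl
  have e3 : (hp 0 ^ 2)⁻¹ * hp 1 * hp 0 ^ 2 = hp (1 + 1 + 1) := by
    rw [← hp_conj (k := 1 + 1) (by norm_num), ← e2, pow_two]; group
  rintro r (rfl | rfl)
  · have := comm_eq_one (hp_commute (k := 1 + 1) (by norm_num))
    rw [← e2] at this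
    simp only [comm, map_mul, map_inv, a0, a1] at this ⊢
    exact this
  · have := comm_eq_one (hp_commute (k := 1 + 1 + 1) (by norm_num))
    rw [← e3] at this
    simp only [comm, map_mul, map_inv, map_pow, a0, a1] at this ⊢
    exact this

noncomputable def rho : ThompsonF →* Equiv.Perm ℝ := PresentedGroup.toGroup img_rel

theorem rho_A : rho A = hp 0 := by
  unfold rho A; rw [PresentedGroup.toGroup.of]; rfl

theorem rho_B : rho B = hp 1 := by
  unfold rho B; rw [PresentedGroup.toGroup.of]; rfl

theorem rho_Z (j : ℕ) : rho (Z j) = hp ((j : ℝ) + 1) := by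
  induction j with
  | zero => simp [Z, rho_B]
  | succ j ih =>
    rw [Z_succ, map_mul, map_mul, map_inv, rho_A, ih, hp_conj (by
      have : (0 : ℝ) ≤ j := Nat.cast_nonneg j
      linarith)]
    push_cast
    rfl

theorem rho_gen_true (j : ℕ) (t : ℝ) :
    rho (gen j true) t = hf (3 * j + 2) (gf (3 * j + 1) t) := by
  simp only [gen, map_mul, map_inv, rho_Z, Equiv.Perm.mul_apply, hp_apply, hp_inv_apply]
  push_cast
  congr 1
  ring

theorem rho_gen_false (j : ℕ) (t : ℝ) :
    rho (gen j false) t = hf (3 * j + 2) (gf (3 * j + 3) t) := by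
  simp only [gen, map_mul, map_inv, rho_Z, Equiv.Perm.mul_apply, hp_apply, hp_inv_apply]
  push_cast
  congr 1
  · ring
  · congr 1; ring

theorem rho_gen_fix (j : ℕ) (b : Bool) (t : ℝ) (h : t ≤ 3 * j + 1 ∨ 3 * j + 4 ≤ t) :
    rho (gen j b) t = t := by
  cases b
  · rw [rho_gen_false]
    unfold hf gf
    rcases h with h | h <;> split_ifs <;> linarith
  · rw [rho_gen_true]
    unfold hf gf
    rcases h with h | h <;> split_ifs <;> linarith

theorem rho_gen_in (j : ℕ) (b : Bool) (t : ℝ) (h1 : 3 * j + 2 < t) (h2 : t < 3 * j + 3) :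
    rho (gen j b) t = (t + (3 * j + 2) + (if b then 1 else 0)) / 2 := by
  cases b
  · rw [rho_gen_false]
    unfold hf gf
    simp only [Bool.false_eq_true, if_false]
    split_ifs <;> linarith
  · rw [rho_gen_true]
    unfold hf gf
    simp only [if_true]
    split_ifs <;> linarith

theorem rho_blk_fix (j : ℕ) (u : FreeMonoid Bool) (t : ℝ) (h : t ≤ 3 * j + 1 ∨ 3 * j + 4 ≤ t) :
    rho (blk j u) t = t := by
  induction u using FreeMonoid.inductionOn' with
  | one => simp
  | of_mul b u ih =>
    rw [map_mul, map_mul, Equiv.Perm.mul_apply, ih]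
    simp only [blk, FreeMonoid.lift_eval_of]
    exact rho_gen_fix j b t h

theorem rho_blk_in (j : ℕ) (u : FreeMonoid Bool) :
    3 * j + 2 < rho (blk j u) (3 * j + 5 / 2) ∧ rho (blk j u) (3 * j + 5 / 2) < 3 * j + 3 := by
  induction u using FreeMonoid.inductionOn' with
  | one => simp only [map_one, Equiv.Perm.one_apply]; constructor <;> linarith
  | of_mul b u ih =>
    rw [map_mul, map_mul, Equiv.Perm.mul_apply]
    have e : blk j (FreeMonoid.of b) = gen j b := by simp [blk]
    rw [e, rho_gen_in j b _ ih.1 ih.2]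
    cases b <;> simp only [Bool.false_eq_true, if_false, if_true] <;> constructor <;>
      linarith [ih.1, ih.2]

theorem rho_blk_cons (j : ℕ) (b : Bool) (u : FreeMonoid Bool) :
    rho (blk j (FreeMonoid.of b * u)) (3 * j + 5 / 2) =
      (rho (blk j u) (3 * j + 5 / 2) + (3 * j + 2) + (if b then 1 else 0)) / 2 := by
  rw [map_mul, map_mul, Equiv.Perm.mul_apply]
  have e : blk j (FreeMonoid.of b) = gen j b := by simp [blk]
  rw [e, rho_gen_in j b _ (rho_blk_in j u).1 (rho_blk_in j u).2]

theorem rho_blk_inj (j : ℕ) (u v : FreeMonoid Bool)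
    (h : rho (blk j u) (3 * j + 5 / 2) = rho (blk j v) (3 * j + 5 / 2)) : u = v := by
  induction u using FreeMonoid.inductionOn' generalizing v with
  | one =>
    induction v using FreeMonoid.inductionOn' with
    | one => rfl
    | of_mul b v _ =>
      exfalso
      rw [rho_blk_cons] at h
      have := rho_blk_in j v
      simp only [map_one, Equiv.Perm.one_apply] at h
      cases b <;> simp only [Bool.false_eq_true, if_false, if_true] at h <;>
        linarith [this.1, this.2]
  | of_mul a u ih =>
    induction v using FreeMonoid.inductionOn' with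
    | one =>
      exfalso
      rw [rho_blk_cons] at h
      have := rho_blk_in j u
      simp only [map_one, Equiv.Perm.one_apply] at h
      cases a <;> simp only [Bool.false_eq_true, if_false, if_true] at h <;>
        linarith [this.1, this.2]
    | of_mul b v _ =>
      rw [rho_blk_cons, rho_blk_cons] at h
      have h1 := rho_blk_in j u
      have h2 := rho_blk_in j v
      cases a <;> cases b <;> simp only [Bool.false_eq_true, if_false, if_true] at h
      · rw [ih v (by linarith)]
      · exfalso; linarith [h1.1, h1.2, h2.1, h2.2]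
      · exfalso; linarith [h1.1, h1.2, h2.1, h2.2]
      · rw [ih v (by linarith)]

theorem blk_pair (n : ℕ) : Pairwise fun i j : Fin n => ∀ x y : FreeMonoid Bool,
    Commute (blk i x) (blk j y) := by
  intro i j hij x y
  rcases lt_or_gt_of_ne hij with h | h
  · exact blk_commute h x y
  · exact (blk_commute h y x).symm

noncomputable def Phi (n : ℕ) : (Fin n → FreeMonoid Bool) →* ThompsonF :=
  MonoidHom.noncommPiCoprod (fun i : Fin n => blk i) (blk_pair n)

theorem Phi_eval (n : ℕ) (w : Fin n → FreeMonoid Bool) (i : Fin n) :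
    rho (Phi n w) (3 * (i : ℕ) + 5 / 2) = rho (blk i (w i)) (3 * (i : ℕ) + 5 / 2) := by
  classical
  have hw : w = Pi.mulSingle i (w i) * Function.update w i 1 := by
    funext j
    by_cases hj : j = i
    · subst hj; simp
    · simp [Function.update_of_ne hj, Pi.mulSingle_eq_of_ne hj]
  have h1 : Phi n (Pi.mulSingle i (w i)) = blk i (w i) :=
    MonoidHom.noncommPiCoprod_mulSingle (fun i : Fin n => blk i) (hcomm := blk_pair n) i (w i)
  have h2 : rho (Phi n (Function.update w i 1)) (3 * (i : ℕ) + 5 / 2) = 3 * (i : ℕ) + 5 / 2 := by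
    unfold Phi
    rw [MonoidHom.noncommPiCoprod_apply]
    apply Finset.noncommProd_induction _ _ _
      (fun g : ThompsonF => rho g (3 * (i : ℕ) + 5 / 2) = 3 * (i : ℕ) + 5 / 2)
    · intro a b ha hb
      rw [map_mul, Equiv.Perm.mul_apply, hb, ha]
    · simp
    · intro j _
      by_cases hj : j = i
      · subst hj; simp
      · apply rho_blk_fix
        rcases lt_or_gt_of_ne hj with h | h
        · right
          have : (j : ℕ) + 1 ≤ i := h
          have : ((j : ℕ) : ℝ) + 1 ≤ (i : ℕ) := by exact_mod_cast this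
          linarith
        · left
          have : (i : ℕ) + 1 ≤ j := h
          have : ((i : ℕ) : ℝ) + 1 ≤ (j : ℕ) := by exact_mod_cast this
          linarith
  conv_lhs => rw [hw]
  rw [map_mul, map_mul, Equiv.Perm.mul_apply, h2, h1]

theorem Phi_inj (n : ℕ) : Function.Injective (Phi n) := by
  intro w w' h
  funext i
  apply rho_blk_inj i
  rw [← Phi_eval, ← Phi_eval, h]

theorem free_growth [DecidableEq (FreeMonoid Bool)] (L : ℕ) :
    2 ^ L ≤ (({1, FreeMonoid.of true, FreeMonoid.of false} : Finset (FreeMonoid Bool)) ^ L).card := by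
  have hmem : ∀ l : List Bool, FreeMonoid.ofList l ∈
      ({1, FreeMonoid.of true, FreeMonoid.of false} : Finset (FreeMonoid Bool)) ^ l.length := by
    intro l
    induction l with
    | nil => simp
    | cons b l ih =>
      rw [List.length_cons, pow_succ', FreeMonoid.ofList_cons]
      refine Finset.mul_mem_mul ?_ ih
      cases b <;> simp
  have := Finset.card_le_card_of_injOn (s := (Finset.univ : Finset (Fin L → Bool)))
    (t := ({1, FreeMonoid.of true, FreeMonoid.of false} : Finset (FreeMonoid Bool)) ^ L)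
    (fun f => FreeMonoid.ofList (List.ofFn f)) (by
      intro f _
      have := hmem (List.ofFn f)
      rw [List.length_ofFn] at this
      exact this) (by
      intro f _ g _ h
      exact List.ofFn_injective (FreeMonoid.ofList.injective h))
  simpa using this

theorem exp_beats (C D : ℕ) : ∃ L : ℕ, C * (L + 1) ^ D < 2 ^ L := by
  have h := tendsto_pow_const_div_const_pow_of_one_lt D (r := 2) (by norm_num)
  have hpos : (0 : ℝ) < 1 / (2 * (C + 1)) := by positivity
  have h2 := (h.eventually (gt_mem_nhds hpos)).and (Filter.eventually_ge_atTop 1)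
  obtain ⟨n, hn, hn1⟩ := h2.exists
  obtain ⟨L, rfl⟩ : ∃ L, n = L + 1 := ⟨n - 1, by omega⟩
  refine ⟨L, ?_⟩
  rw [div_lt_div_iff₀ (by positivity) (by positivity)] at hn
  have h3 : (C : ℝ) * ((L : ℝ) + 1) ^ D < 2 ^ L := by
    push_cast at hn
    rw [pow_succ] at hn
    have : (0 : ℝ) < ((L : ℝ) + 1) ^ D := by positivity
    nlinarith
  exact_mod_cast h3

theorem main (cl : Bool) (S : Finset ThompsonF)
    (hS : Subgroup.closure (S : Set ThompsonF) = ⊤) : wHyperdim cl (wordDist S) = ⊤ := by
  classical
  refine wHyperdim_eq_top cl S hS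
    ({1, FreeMonoid.of true, FreeMonoid.of false} : Finset (FreeMonoid Bool)) (by simp) ?_
    (fun n => ⟨Phi n, Phi_inj n⟩)
  intro C D
  obtain ⟨L, hL⟩ := exp_beats C D
  exact ⟨L, hL.trans_le (free_growth L)⟩

end Pool.Agent.H786Z.WH.Thomp
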